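import Pool.Agent.R894.RM.ALL

/-!
# MP_1c6531_pr: `P(d₁₂ < 1) ≥ c / √n` for a uniform random metric space

Let `V` be the volume of the set `MM n` of the metrics on `n` points with all distances in `(0,2]`,
`N = n(n-1)/2` and `P = P(d₁₂ < 1)`.  The proof shows `log V ≤ (2 + 2 log 2) N P`, and
`log V ≥ n^{3/2}/64`.

* Gibbs' inequality, for the uniform distribution on `MM n` and the product of the density which is
  `exp(-(1-t)/δ)/2` on `(0,1)`, `1/2` on `[1,1+δ)` and `1` on `[1+δ,2]`, gives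
  `log V ≤ N (log 2 P(d₁₂ < 1+δ) + E(1-d₁₂)₊/δ)` for every `0 < δ ≤ 1`.
* Choose `δ` with `P(d₁₂ < 1-δ) = P/2`.  The law of `d₁₂` is log-concave (Brunn-Minkowski), so
  `P(d₁₂ < 1-kδ) ≤ 2^{-k} P`, hence `E(1-d₁₂)₊ ≤ 2δP`; and
  `P(1-2δ ≤ d₁₂ < 1-δ) P(1 ≤ d₁₂ < 1+δ) ≤ P(1-δ ≤ d₁₂ < 1)²` gives `P(1 ≤ d₁₂ < 1+δ) ≤ P`.
  This is what removes the logarithm.
* The lower bound for `V` follows from the Lovász local lemma for independent distances, uniform on
  `[1-δ,2]`, `δ = 1/(16√n)`.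
-/

set_option autoImplicit false

open MeasureTheory Set

namespace Pool.Agent.Results.MP_1c6531_pr.LowerTail

open Pool.Agent.R894.RM

/-- There is `c > 0` such that for every `n ≥ 3` and every pair `e` of points, a uniformly random
metric `d` on `n` points with all distances in `(0,2]` satisfies `P(d e < 1) ≥ c / √n`. -/
theorem result : ∃ c : ℝ, 0 < c ∧ ∀ n : ℕ, 3 ≤ n → ∀ e : Edge n,
    c / Real.sqrt n ≤
      (ProbabilityTheory.cond (volume : Measure (Edge n → ℝ)) (MM n) {d | d e < 1}).toReal := by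
  obtain ⟨c, hc, h⟩ := everyN
  refine ⟨c, hc, fun n _ e => (h n e).trans (le_of_eq ?_)⟩
  rw [ProbabilityTheory.cond_apply (bas n).1, ENNReal.toReal_mul, ENNReal.toReal_inv, div_eq_mul_inv,
    mul_comm]

end Pool.Agent.Results.MP_1c6531_pr.LowerTail
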